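import Pool.Agent.Lib.MP_ca8614_al.Components

set_option autoImplicit false

open Pool.Agent.Lib.MP_ca8614_al

/-- **First part (unconditional).** Let `F` be a field of order `p ^ (2 ^ c)`, `p` an odd
prime and `c > 0`. Then `PSp(4, F)` and `PSL(4, F)` are non-abelian finite simple groups,
`PSL(4, F)` is not one of the exceptional groups `PSp(4, s ^ (2 ^ d))`, and the homomorphism
`PSp(4, F) → PSL(4, F)` induced by the inclusion of the symplectic group in the special linear
group is an envelope. In particular `PSp(4, F)` and `PSL(4, F)` lie in the same weak rigid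
component.

**Second part.** If any two non-exceptional non-abelian finite simple groups lie in the same
rigid component (the theorem of Parker and Saxl), then any two non-abelian finite simple groups
lie in the same weak rigid component. -/
theorem Pool.Agent.Results.MP_ca8614_al.EnvelopePSp4InPSL4.result :
    (∀ (p c : ℕ) (F : Type) [Field F],
      p.Prime → p ≠ 2 → 0 < c → Nat.card F = p ^ 2 ^ c →
      IsNonabelianFiniteSimple (PSpFour F) ∧ IsNonabelianFiniteSimple (PSLFour F) ∧
      ¬ IsExceptional (PSLFour F) ∧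
      ∃ φ : PSpFour F →* PSLFour F, IsInducedByInclusion φ ∧ IsEnvelope φ) ∧
    ((∀ A B : NFSG, ¬ IsExceptional A.carrier → ¬ IsExceptional B.carrier →
        SameRigidComponent A B) →
      ∀ A B : NFSG, SameWeakRigidComponent A B) := by
  have part1 : ∀ (p c : ℕ) (F : Type) [Field F],
      p.Prime → p ≠ 2 → 0 < c → Nat.card F = p ^ 2 ^ c →
      IsNonabelianFiniteSimple (PSpFour F) ∧ IsNonabelianFiniteSimple (PSLFour F) ∧
      ¬ IsExceptional (PSLFour F) ∧
      ∃ φ : PSpFour F →* PSLFour F, IsInducedByInclusion φ ∧ IsEnvelope φ := by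
    intro p c F _ hp hp2 hc hF
    have hF2 : Finite F := Nat.finite_of_card_ne_zero (by
      rw [hF]
      exact (pow_pos hp.pos _).ne')
    obtain ⟨h1, h2⟩ := nfs p c hp hp2 F hc hF
    refine ⟨h1, h2, ?_, main_envelope p c hp hp2 hc F hF⟩
    rintro ⟨s, d, K, hK1, hs, hs2, -, hK, ⟨e⟩⟩
    have hK2 : Finite K := Nat.finite_of_card_ne_zero (by
      rw [hK]
      exact (pow_pos hs.pos _).ne')
    exact not_iso p c s d hp hs hp2 hs2 F K hF hK e
  refine ⟨part1, ?_⟩
  intro hPS
  -- every group is weakly connected to a non-exceptional one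
  have key : ∀ A : NFSG, ∃ B : NFSG, ¬ IsExceptional B.carrier ∧ SameWeakRigidComponent A B := by
    intro A
    by_cases hA : IsExceptional A.carrier
    · obtain ⟨s, d, K, hK1, hs, hs2, hd, hK, ⟨e⟩⟩ := hA
      obtain ⟨h1, h2, h3, φ, -, hφ⟩ := part1 s d K hs hs2 hd hK
      have _ : Finite (PSpFour K) := h1.1
      refine ⟨⟨PSLFour K, h2⟩, h3, ?_⟩
      refine Relation.ReflTransGen.trans (b := (⟨PSpFour K, h1⟩ : NFSG)) ?_ ?_
      · exact Relation.ReflTransGen.single (Or.inl ⟨e.toMonoidHom, isEnvelope_equiv e⟩)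
      · exact Relation.ReflTransGen.single (Or.inl ⟨φ, hφ⟩)
    · exact ⟨A, hA, Relation.ReflTransGen.refl⟩
  intro A B
  obtain ⟨A', hA', hAA'⟩ := key A
  obtain ⟨B', hB', hBB'⟩ := key B
  exact hAA'.trans ((hPS A' B' hA' hB').weak.trans hBB'.symm)
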